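import Mathlib

namespace Pool.Agent.Work.MP_bfacb1_co

/-- `c` is a proper edge-colouring of `G`: distinct edges with a common vertex get distinct
colours. -/
def IsProperEdge {V C : Type} (G : SimpleGraph V) (c : G.edgeSet → C) : Prop :=
  ∀ e f : G.edgeSet, e ≠ f → (∃ v : V, v ∈ (e : Sym2 V) ∧ v ∈ (f : Sym2 V)) → c e ≠ c f

/-- Some copy of `H` in `G` is rainbow under `c`: there is an injective homomorphism from `H` to
`G` such that the images of distinct edges of `H` have distinct colours. -/
def HasRainbow {V W C : Type} (G : SimpleGraph V) (H : SimpleGraph W) (c : G.edgeSet → C) : Prop :=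
  ∃ f : SimpleGraph.Copy H G, Function.Injective (fun e : H.edgeSet => c (f.mapEdgeSet e))

/-- The set `K(G,H)` of all `k ≥ 1` such that `G` has a surjective proper edge-colouring with
exactly `k` colours and without rainbow copy of `H`. -/
def colourCounts {V W : Type} (G : SimpleGraph V) (H : SimpleGraph W) : Set ℕ :=
  {k | 1 ≤ k ∧ ∃ c : G.edgeSet → Fin k,
    IsProperEdge G c ∧ Function.Surjective c ∧ ¬ HasRainbow G H c}

end Pool.Agent.Work.MP_bfacb1_co
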