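import Pool.Agent.Work.MP_bfacb1_co.Defs

namespace Pool.Agent.Work.MP_bfacb1_co

/-- end points of the ten edges of K5 -/
def ea : Fin 10 → Fin 5 := ![0, 0, 0, 0, 1, 1, 1, 2, 2, 3]
def eb : Fin 10 → Fin 5 := ![1, 2, 3, 4, 2, 3, 4, 3, 4, 4]

/-- index table -/
def idx : Fin 5 → Fin 5 → Fin 10 :=
  ![![0, 0, 1, 2, 3], ![0, 0, 4, 5, 6], ![1, 4, 0, 7, 8], ![2, 5, 7, 0, 9], ![3, 6, 8, 9, 0]]

/-- conflict masks: bit `j` of entry `i` says whether the edges `i ≠ j` meet -/
def masks : List ℕ := [126, 413, 683, 839, 483, 725, 825, 822, 730, 492]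

def confN (i j : ℕ) : Bool := Nat.testBit (masks.getD i 0) j

/-- the six edges of the house -/
def ha : Fin 6 → Fin 5 := ![0, 1, 2, 0, 0, 1]
def hb : Fin 6 → Fin 5 := ![1, 2, 3, 3, 4, 4]

def house : SimpleGraph (Fin 5) :=
  SimpleGraph.fromEdgeSet {s(0, 1), s(1, 2), s(2, 3), s(0, 3), s(0, 4), s(1, 4)}

/-- all injections as lists -/
def allF : List (List (Fin 5)) :=
  (List.finRange 5).flatMap fun a => (List.finRange 5).flatMap fun b =>
    if b = a then [] else (List.finRange 5).flatMap fun c =>
      if c = a ∨ c = b then [] else (List.finRange 5).flatMap fun d =>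
        if d = a ∨ d = b ∨ d = c then [] else (List.finRange 5).flatMap fun e =>
          if e = a ∨ e = b ∨ e = c ∨ e = d then [] else [[a, b, c, d, e]]

/-- index lists of the copies of the house -/
def copies : List (List ℕ) :=
  allF.map fun f => (List.finRange 6).map fun t => (idx (f.getD (ha t) 0) (f.getD (hb t) 0) : ℕ)

def nodupB : List ℕ → Bool
  | [] => true
  | a :: l => !(l.any (fun b => b == a)) && nodupB l

theorem nodup_of_nodupB : ∀ l : List ℕ, nodupB l = true → l.Nodup
  | [], _ => List.nodup_nil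
  | a :: l, h => by
    simp only [nodupB, Bool.and_eq_true, Bool.not_eq_true', List.any_eq_false, beq_iff_eq] at h
    exact List.nodup_cons.2 ⟨fun ha => h.1 a ha rfl, nodup_of_nodupB l h.2⟩

/-- `l` is the list of values in order `0, 1, ...`; final test -/
def final (l : List ℕ) : Bool :=
  let c := ((List.range 10).filter (fun i => l.getD i 100 == i)).length
  c == 5 || c == 7 || copies.any (fun t => nodupB (t.map (fun i => l.getD i 100)))

def okv (l : List ℕ) (i v : ℕ) : Bool :=
  (List.range i).all (fun j => !(l.getD j 100 == v && confN i j))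

def go : ℕ → ℕ → List ℕ → Bool
  | 0, _, l => final l
  | n + 1, i, l => go n (i + 1) (l ++ [i]) &&
      (List.range i).all (fun v => !(l.getD v 100 == v && okv l i v) || go n (i + 1) (l ++ [v]))

set_option maxRecDepth 100000 in
theorem go_true : go 10 0 [] = true := by decide +kernel

section sound

variable {C : Type} [DecidableEq C] (d : ℕ → C)

/-- least index with the same colour -/
noncomputable def rr (i : ℕ) : ℕ := Nat.find (⟨i, rfl⟩ : ∃ j, d j = d i)

theorem rr_spec (i : ℕ) : d (rr d i) = d i := Nat.find_spec (⟨i, rfl⟩ : ∃ j, d j = d i)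

theorem rr_le (i : ℕ) : rr d i ≤ i := Nat.find_min' _ rfl

theorem rr_eq_iff (i j : ℕ) : rr d i = rr d j ↔ d i = d j := by
  constructor
  · intro h
    rw [← rr_spec d i, ← rr_spec d j, h]
  · intro h
    unfold rr
    simp only [h]

theorem rr_rr (i : ℕ) : rr d (rr d i) = rr d i := (rr_eq_iff d _ _).2 (rr_spec d i)

noncomputable def pre (i : ℕ) : List ℕ := (List.range i).map (rr d)

theorem pre_succ (i : ℕ) : pre d (i + 1) = pre d i ++ [rr d i] := by
  simp [pre, List.range_succ]

theorem pre_getD {i j : ℕ} (h : j < i) : (pre d i).getD j 100 = rr d j := by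
  simp [pre, List.getD_eq_getElem?_getD, h]

theorem go_sound (hd : ∀ i j, i < 10 → j < i → confN i j = true → d i ≠ d j) :
    ∀ n i, n + i = 10 → go n i (pre d i) = true → final (pre d 10) = true := by
  intro n
  induction n with
  | zero =>
    intro i hi h
    have : i = 10 := by omega
    subst this
    exact h
  | succ n ih =>
    intro i hi h
    simp only [go, Bool.and_eq_true, List.all_eq_true, List.mem_range, Bool.or_eq_true,
      Bool.not_eq_true'] at h
    obtain ⟨h1, h2⟩ := h
    apply ih (i + 1) (by omega)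
    rw [pre_succ]
    rcases (rr_le d i).lt_or_eq with hlt | heq
    · rcases h2 (rr d i) hlt with h3 | h3
      · exfalso
        rw [pre_getD d hlt, rr_rr, okv] at h3
        simp only [beq_self_eq_true, Bool.true_and] at h3
        rw [Bool.eq_false_iff] at h3
        apply h3
        rw [List.all_eq_true]
        intro j hj
        rw [List.mem_range] at hj
        rw [pre_getD d hj]
        simp only [Bool.not_eq_true', Bool.and_eq_false_iff, beq_eq_false_iff_ne]
        by_cases hc : confN i j = true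
        · left
          intro hr
          exact hd i j (by omega) hj hc ((rr_eq_iff d i j).1 hr.symm)
        · right
          simpa using hc
      · exact h3
    · rw [heq]; exact h1

theorem final_of_proper (hd : ∀ i j, i < 10 → j < i → confN i j = true → d i ≠ d j) :
    final (pre d 10) = true :=
  go_sound d hd 10 0 rfl (by simpa [pre] using go_true)

end sound

/-- the edge with a given index -/
def edge (i : Fin 10) : Sym2 (Fin 5) := s(ea i, eb i)

theorem edge_mem (i : Fin 10) : edge i ∈ (⊤ : SimpleGraph (Fin 5)).edgeSet := by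
  revert i; simp only [edge, SimpleGraph.mem_edgeSet, SimpleGraph.top_adj]; decide

def edgeE (i : Fin 10) : (⊤ : SimpleGraph (Fin 5)).edgeSet := ⟨edge i, edge_mem i⟩

theorem edge_idx : ∀ u v : Fin 5, u ≠ v → edge (idx u v) = s(u, v) := by decide

theorem edge_inj : Function.Injective edge := by
  intro i j; revert i j; decide

theorem edgeE_surj : Function.Surjective edgeE := by
  rintro ⟨e, he⟩
  induction e with
  | _ u v =>
    have huv : u ≠ v := by simpa using he
    exact ⟨idx u v, Subtype.ext (edge_idx u v huv)⟩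

theorem conf_meet : ∀ i j : Fin 10, confN i j = true →
    i ≠ j ∧ ∃ v : Fin 5, v ∈ edge i ∧ v ∈ edge j := by decide

theorem allF_spec : ∀ f ∈ allF, Function.Injective (fun u : Fin 5 => f.getD u 0) := by
  decide +kernel

theorem house_adj : ∀ u v : Fin 5, house.Adj u v ↔
    (u ≠ v ∧ ∃ t : Fin 6, s(ha t, hb t) = s(u, v)) := by
  intro u v
  rw [house, SimpleGraph.fromEdgeSet_adj]
  revert u v
  decide

theorem ha_ne : ∀ t : Fin 6, ha t ≠ hb t := by decide

theorem hab_inj : Function.Injective (fun t : Fin 6 => s(ha t, hb t)) := by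
  intro i j; revert i j; decide

theorem mem_house_edge (e : Sym2 (Fin 5)) : e ∈ house.edgeSet ↔ ∃ t : Fin 6, s(ha t, hb t) = e := by
  induction e with
  | _ u v =>
    rw [SimpleGraph.mem_edgeSet, house_adj]
    constructor
    · rintro ⟨_, h⟩; exact h
    · rintro ⟨t, ht⟩
      refine ⟨?_, t, ht⟩
      rintro rfl
      have := ha_ne t
      rw [Sym2.eq_iff] at ht
      rcases ht with ⟨h1, h2⟩ | ⟨h1, h2⟩ <;> exact this (h1.trans h2.symm)

def copyOf (f : Fin 5 → Fin 5) (hf : Function.Injective f) :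
    SimpleGraph.Copy house (⊤ : SimpleGraph (Fin 5)) :=
  ⟨⟨f, fun {a b} hab => by
    rw [SimpleGraph.top_adj]
    exact fun h => hab.ne (hf h)⟩, hf⟩

theorem rainbow_of_copies {k : ℕ} (c : (⊤ : SimpleGraph (Fin 5)).edgeSet → Fin k) (d : ℕ → Fin k)
    (hdc : ∀ i : Fin 10, d i = c (edgeE i))
    (h : copies.any (fun t => nodupB (t.map (fun i => (pre d 10).getD i 100))) = true) :
    HasRainbow (⊤ : SimpleGraph (Fin 5)) house c := by
  rw [List.any_eq_true] at h
  obtain ⟨t, ht, h⟩ := h
  rw [copies, List.mem_map] at ht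
  obtain ⟨f, hf, rfl⟩ := ht
  have hfi := allF_spec f hf
  have h' := nodup_of_nodupB _ h
  rw [List.map_map] at h'
  have hinj : Function.Injective (fun t : Fin 6 =>
      d (idx (f.getD (ha t) 0) (f.getD (hb t) 0) : ℕ)) := by
    intro a b hab
    have h2 := List.inj_on_of_nodup_map h' (List.mem_finRange a) (List.mem_finRange b)
    apply h2
    simp only [Function.comp]
    rw [pre_getD d (Fin.is_lt _), pre_getD d (Fin.is_lt _)]
    exact (rr_eq_iff d _ _).2 hab
  refine ⟨copyOf (fun u => f.getD u 0) hfi, ?_⟩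
  have key : ∀ (t : Fin 6) (e : house.edgeSet), s(ha t, hb t) = (e : Sym2 (Fin 5)) →
      c ((copyOf (fun u => f.getD u 0) hfi).mapEdgeSet e) =
        d (idx (f.getD (ha t) 0) (f.getD (hb t) 0) : ℕ) := by
    intro t e hte
    rw [hdc]
    congr 1
    apply Subtype.ext
    have hne : f.getD (ha t) 0 ≠ f.getD (hb t) 0 := fun h0 => ha_ne t (hfi h0)
    show _ = edge _
    rw [edge_idx _ _ hne]
    show Sym2.map _ (e : Sym2 (Fin 5)) = _
    rw [← hte]
    rfl
  intro e1 e2 he
  obtain ⟨t1, h1⟩ := (mem_house_edge e1).1 e1.2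
  obtain ⟨t2, h2⟩ := (mem_house_edge e2).1 e2.2
  have he' : c ((copyOf (fun u => f.getD u 0) hfi).mapEdgeSet e1) =
    c ((copyOf (fun u => f.getD u 0) hfi).mapEdgeSet e2) := he
  rw [key t1 e1 h1, key t2 e2 h2] at he'
  have := hinj he'
  subst this
  exact Subtype.ext (h1.symm.trans h2)

theorem count_eq {k : ℕ} (d : ℕ → Fin k) (hd : ∀ x : Fin k, ∃ i < 10, d i = x) :
    ((List.range 10).filter (fun i => (pre d 10).getD i 100 == i)).length = k := by
  have h1 : (List.range 10).filter (fun i => (pre d 10).getD i 100 == i) =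
      (List.range 10).filter (fun i => rr d i == i) := by
    apply List.filter_congr
    intro i hi
    rw [List.mem_range] at hi
    rw [pre_getD d hi]
  rw [h1]
  have hnd : ((List.range 10).filter (fun i => rr d i == i)).Nodup :=
    List.nodup_range.filter _
  rw [← List.toFinset_card_of_nodup hnd]
  have hcard : (((List.range 10).filter (fun i => rr d i == i)).toFinset).card =
      (Finset.univ : Finset (Fin k)).card := by
    apply Finset.card_bij (fun i _ => d i)
    · intro i _; exact Finset.mem_univ _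
    · intro i hi j hj hij
      simp only [List.mem_toFinset, List.mem_filter, beq_iff_eq] at hi hj
      rw [← hi.2, ← hj.2]
      exact (rr_eq_iff d _ _).2 hij
    · intro x _
      obtain ⟨i, hi, hx⟩ := hd x
      refine ⟨rr d i, ?_, ?_⟩
      · simp only [List.mem_toFinset, List.mem_filter, beq_iff_eq, List.mem_range]
        exact ⟨lt_of_le_of_lt (rr_le d i) hi, rr_rr d i⟩
      · exact (rr_spec d i).trans hx
  rw [hcard, Finset.card_univ, Fintype.card_fin]

theorem sub_part {k : ℕ} (hk : k ∈ colourCounts (⊤ : SimpleGraph (Fin 5)) house) :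
    k = 5 ∨ k = 7 := by
  obtain ⟨_, c, hp, hs, hr⟩ := hk
  let d : ℕ → Fin k := fun i => c (edgeE (Fin.ofNat 10 i))
  have hdc : ∀ i : Fin 10, d i = c (edgeE i) := by
    intro i
    show c (edgeE (Fin.ofNat 10 i)) = _
    congr 2
    apply Fin.ext
    simp [Fin.ofNat, Nat.mod_eq_of_lt i.2]
  have hd : ∀ i j, i < 10 → j < i → confN i j = true → d i ≠ d j := by
    intro i j hi hj hc
    have h1 := conf_meet ⟨i, hi⟩ ⟨j, by omega⟩ hc
    have h2 := hdc ⟨i, hi⟩
    have h3 := hdc ⟨j, by omega⟩
    simp only at h2 h3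
    rw [h2, h3]
    apply hp
    · intro h4
      exact h1.1 (edge_inj (congrArg Subtype.val h4))
    · exact h1.2
  have hf := final_of_proper d hd
  unfold final at hf
  simp only [Bool.or_eq_true, beq_iff_eq] at hf
  have hsurj : ∀ x : Fin k, ∃ i < 10, d i = x := by
    intro x
    obtain ⟨e, he⟩ := hs x
    obtain ⟨i, hi⟩ := edgeE_surj e
    exact ⟨i, i.2, by rw [hdc, hi, he]⟩
  rw [count_eq d hsurj] at hf
  rcases hf with (h | h) | h
  · exact Or.inl h
  · exact Or.inr h
  · exact absurd (rainbow_of_copies c d hdc h) hr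

/-- the inverse of `edge` -/
def index (e : Sym2 (Fin 5)) : Fin 10 :=
  Sym2.lift ⟨idx, by decide⟩ e

theorem index_edge : ∀ u v : Fin 5, u ≠ v → index s(u, v) = idx u v := by
  intro u v _; rfl

theorem proper_of_table {k : ℕ} (T : Fin 10 → Fin k)
    (hT : ∀ i j : Fin 10, i ≠ j → (∃ v : Fin 5, v ∈ edge i ∧ v ∈ edge j) → T i ≠ T j) :
    IsProperEdge (⊤ : SimpleGraph (Fin 5)) (fun e => T (index e.1)) := by
  intro e f hef hv
  obtain ⟨i, rfl⟩ := edgeE_surj e
  obtain ⟨j, rfl⟩ := edgeE_surj f
  have h : ∀ i : Fin 10, index (edgeE i).1 = i := by decide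
  simp only [h]
  apply hT
  · rintro rfl; exact hef rfl
  · exact hv

theorem surj_of_table {k : ℕ} (T : Fin 10 → Fin k) (hT : Function.Surjective T) :
    Function.Surjective
      (fun e : (⊤ : SimpleGraph (Fin 5)).edgeSet => T (index e.1)) := by
  intro x
  obtain ⟨i, hi⟩ := hT x
  have h : ∀ i : Fin 10, index (edgeE i).1 = i := by decide
  exact ⟨edgeE i, by simp only [h]; exact hi⟩

def T5 : Fin 10 → Fin 5 := ![0, 1, 2, 3, 2, 3, 4, 4, 0, 1]
def T7 : Fin 10 → Fin 7 := ![0, 1, 2, 3, 2, 1, 4, 0, 5, 6]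

theorem no_rainbow7 : ¬ HasRainbow (⊤ : SimpleGraph (Fin 5)) house (fun e => T7 (index e.1)) := by
  rintro ⟨f, hf⟩
  have hfi : Function.Injective (fun x => f.toHom x) := f.injective'
  have key : ∀ a b c d e : Fin 5, a ≠ b → a ≠ c → a ≠ d → a ≠ e → b ≠ c → b ≠ d → b ≠ e →
      c ≠ d → c ≠ e → d ≠ e → ∃ s t : Fin 6, s ≠ t ∧
      T7 (idx ((![a, b, c, d, e] : Fin 5 → Fin 5) (ha s)) ((![a, b, c, d, e] : Fin 5 → Fin 5) (hb s)))
       = T7 (idx ((![a, b, c, d, e] : Fin 5 → Fin 5) (ha t))
          ((![a, b, c, d, e] : Fin 5 → Fin 5) (hb t))) := by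
    decide +kernel
  have hne : ∀ x y : Fin 5, x ≠ y → f.toHom x ≠ f.toHom y := fun x y h h' => h (hfi h')
  obtain ⟨s, t, hst, h⟩ := key (f.toHom 0) (f.toHom 1) (f.toHom 2) (f.toHom 3) (f.toHom 4)
    (hne _ _ (by decide)) (hne _ _ (by decide)) (hne _ _ (by decide)) (hne _ _ (by decide))
    (hne _ _ (by decide)) (hne _ _ (by decide)) (hne _ _ (by decide)) (hne _ _ (by decide))
    (hne _ _ (by decide)) (hne _ _ (by decide))
  have hv : (![f.toHom 0, f.toHom 1, f.toHom 2, f.toHom 3, f.toHom 4] : Fin 5 → Fin 5) =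
      fun x => f.toHom x := by
    funext x
    fin_cases x <;> rfl
  rw [hv] at h
  let es : house.edgeSet := ⟨s(ha s, hb s), (mem_house_edge _).2 ⟨s, rfl⟩⟩
  let et : house.edgeSet := ⟨s(ha t, hb t), (mem_house_edge _).2 ⟨t, rfl⟩⟩
  have heq : es = et := hf h
  exact hst (hab_inj (congrArg Subtype.val heq))

theorem no_rainbow5 (c : (⊤ : SimpleGraph (Fin 5)).edgeSet → Fin 5) :
    ¬ HasRainbow (⊤ : SimpleGraph (Fin 5)) house c := by
  rintro ⟨f, hf⟩
  have h2 : Function.Injective (fun t : Fin 6 =>
      c (f.mapEdgeSet ⟨s(ha t, hb t), (mem_house_edge _).2 ⟨t, rfl⟩⟩)) := by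
    intro s t hst
    have := hf hst
    exact hab_inj (congrArg Subtype.val this)
  have := Fintype.card_le_of_injective _ h2
  simp at this

theorem main : colourCounts (⊤ : SimpleGraph (Fin 5)) house = {5, 7} := by
  ext k
  constructor
  · intro hk
    rcases sub_part hk with h | h <;> simp [h]
  · intro hk
    rcases hk with h | h
    · subst h
      exact ⟨by norm_num, _, proper_of_table T5 (by decide), surj_of_table T5 (by decide),
        no_rainbow5 _⟩
    · rw [Set.mem_singleton_iff] at h
      subst h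
      exact ⟨by norm_num, _, proper_of_table T7 (by decide), surj_of_table T7 (by decide),
        no_rainbow7⟩

end Pool.Agent.Work.MP_bfacb1_co
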